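import Mathlib

set_option autoImplicit false
set_option linter.unusedSimpArgs false
set_option linter.unusedVariables false

/-! Adding a right-linear part to a grammar form does not enlarge its family if it adds no word. -/

namespace Pool.Agent.H.MP_3cd25e_lc

open List Sum

abbrev Rule (N : Type) := N × List (ℕ ⊕ N)

inductive Gn {N : Type} (R : Set (Rule N)) : List (ℕ ⊕ N) → List ℕ → Prop
  | nil : Gn R [] []
  | ter (a) {l w} : Gn R l w → Gn R (inl a :: l) (a :: w)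
  | nt {X β l w w'} : (X, β) ∈ R → Gn R β w → Gn R l w' → Gn R (inr X :: l) (w ++ w')

section
variable {N N' : Type} {R : Set (Rule N)}

theorem Gn.ters {l w} (x : List ℕ) (h : Gn R l w) : Gn R (x.map inl ++ l) (x ++ w) := by
  induction x with
  | nil => exact h
  | cons a x ih => exact .ter a ih

theorem Gn.one {X β w} (a : (X, β) ∈ R) (h : Gn R β w) : Gn R [inr X] w := by simpa using Gn.nt a h .nil

theorem Gn.unters {l} : ∀ {x : List ℕ} {w}, Gn R (x.map inl ++ l) w → ∃ v, w = x ++ v ∧ Gn R l v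
  | [], _, h => ⟨_, rfl, h⟩
  | _ :: _, _, .ter _ h => by obtain ⟨v, rfl, b⟩ := h.unters; exact ⟨v, rfl, b⟩

theorem Gn.map {R' : Set (Rule N')} (f : N → N') (h : ℕ → ℕ)
    (e : ∀ r ∈ R, (f r.1, r.2.map (Sum.map h f)) ∈ R') {α w} (a : Gn R α w) :
    Gn R' (α.map (Sum.map h f)) (w.map h) := by
  induction a with
  | nil => exact .nil
  | ter a _ ih => exact .ter _ ih
  | nt a _ _ ih ih' => rw [map_append]; exact .nt (e _ a) ih ih'

def Sm (I : N → List ℕ → Prop) : List (ℕ ⊕ N) → List ℕ → Prop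
  | [], w => w = []
  | inl a :: l, w => ∃ v, w = a :: v ∧ Sm I l v
  | inr X :: l, w => ∃ u v, w = u ++ v ∧ I X u ∧ Sm I l v

theorem Gn.sound {I : N → List ℕ → Prop} (e : ∀ r ∈ R, ∀ w, Sm I r.2 w → I r.1 w) {α w} (a : Gn R α w) :
    Sm I α w := by
  induction a with
  | nil => rfl
  | ter a _ ih => exact ⟨_, rfl, ih⟩
  | nt a _ _ ih ih' => exact ⟨_, _, rfl, e _ a _ ih, ih'⟩

theorem sm_ters {I : N → List ℕ → Prop} {l} {x : List ℕ} : ∀ {w}, Sm I (x.map inl ++ l) w ↔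
    ∃ v, w = x ++ v ∧ Sm I l v := by
  induction x with
  | nil => simp
  | cons a x ih => simp [Sm, ih]
end

abbrev Code := ℕ × List (Rule ℕ)

def Ip (G' G : Code) : Prop :=
  ∃ f h : ℕ → ℕ, f G'.1 = G.1 ∧ ∀ r ∈ G'.2, (f r.1, r.2.map (Sum.map h f)) ∈ G.2

def Lg (G : Code) : Set (List ℕ) := {w | Gn {r | r ∈ G.2} [inr G.1] w}

theorem enc {N : Type} [Countable N] {P : Set (Rule N)} (fP : P.Finite) (S : N) (f : N → ℕ) (h : ℕ → ℕ)
    {G : Code} (a : f S = G.1) (b : ∀ r ∈ P, (f r.1, r.2.map (Sum.map h f)) ∈ G.2) :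
    ∃ G', Ip G' G ∧ Lg G' = {w | Gn P [inr S] w} := by
  obtain ⟨e, he⟩ := exists_injective_nat N
  have : Nonempty N := ⟨S⟩
  obtain ⟨g, hg⟩ := he.hasLeftInverse
  have k : ∀ β : List (ℕ ⊕ N), (β.map (Sum.map id e)).map (Sum.map id g) = β := fun β => by
    simp [Sum.map_comp_map, hg.comp_eq_id]
  refine ⟨(e S, fP.toFinset.toList.map fun r => (e r.1, r.2.map (Sum.map id e))), ⟨f ∘ g, h, by simpa [hg S],
    forall_mem_map.2 fun r c => ?_⟩, Set.ext fun w => ⟨fun c => ?_, fun c => ?_⟩⟩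
  · simpa [hg r.1, Sum.map_comp_map, Function.comp_assoc, hg.comp_eq_id] using b r (by simpa using c)
  · simpa [hg S] using c.map (R' := P) g id (forall_mem_map.2 fun r c => by
      rw [hg, k]; simpa using c)
  · have := c.map (R' := {r | r ∈ fP.toFinset.toList.map fun r => (e r.1, r.2.map (Sum.map id e))}) e id
      fun r c => mem_map.2 ⟨r, Finset.mem_toList.2 (fP.mem_toFinset.2 c), rfl⟩
    rwa [map_id] at this

section
variable (R' : List (Rule ℕ)) (f h : ℕ → ℕ) (C : Set ℕ)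

def dl (p : Option ℕ) (a : ℕ) (q : Option ℕ) : Prop :=
  ∃ X, p = some X ∧ f X ∈ C ∧ (X, inl a :: q.toList.map inr) ∈ R'

inductive Pa : Option ℕ → List ℕ → Option ℕ → Prop
  | nil (p) : Pa p [] p
  | cons {p a p' w q} : dl R' f C p a p' → Pa p' w q → Pa p (a :: w) q

def Q0 : Set (Option ℕ) := insert none (some '' (inr ⁻¹' {x | x ∈ R'.flatMap (·.2)}))

inductive Ch : Option ℕ → List (ℕ ⊕ ℕ) → Option ℕ → List (ℕ ⊕ (ℕ ⊕ Option ℕ × ℕ × Option ℕ)) → Prop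
  | nil (p) : Ch p [] p []
  | ter {p a p' β q γ} : dl R' f C p a p' → Ch p' β q γ → Ch p (inl (h a) :: β) q (inl a :: γ)
  | nt (Y) {p p' β q γ} : p ∈ Q0 R' → p' ∈ Q0 R' → Ch p' β q γ →
      Ch p (inr Y :: β) q (inr (inr (p, Y, p')) :: γ)

variable {R' f h C}

theorem Pa.app {p q q' w v} (a : Pa R' f C p w q) (b : Pa R' f C q v q') : Pa R' f C p (w ++ v) q' := by
  induction a with
  | nil => exact b
  | cons a _ ih => exact .cons a (ih b)

theorem dl.mem {p a q} (b : dl R' f C p a q) : q ∈ Q0 R' := by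
  obtain ⟨X, -, -, b⟩ := b
  cases q
  exacts [.inl rfl, .inr ⟨_, mem_flatMap.2 ⟨_, b, by simp⟩, rfl⟩]

theorem Pa.split {q v} : ∀ {w p}, Pa R' f C p (w ++ v) q → p ∈ Q0 R' →
    ∃ p' ∈ Q0 R', Pa R' f C p w p' ∧ Pa R' f C p' v q
  | [], _, a, b => ⟨_, b, .nil _, a⟩
  | _ :: _, _, .cons a b, _ => by
    obtain ⟨_, c, d, e⟩ := b.split a.mem
    exact ⟨_, c, .cons a d, e⟩

theorem Pa.gn {p w q} (a : Pa R' f C p w q) (e : q = none) : Gn {r | r ∈ R'} (p.toList.map inr) w := by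
  induction a with
  | nil => exact e ▸ .nil
  | cons a _ ih => obtain ⟨X, rfl, -, b⟩ := a; exact .one b (.ter _ (ih e))

theorem finQ : (Q0 R').Finite := (((finite_toSet _).preimage inr_injective.injOn).image _).insert _

theorem finCh : ∀ β, {γ | ∃ p q, Ch R' f h C p β q γ}.Finite
  | [] => (Set.finite_singleton []).subset (by rintro _ ⟨_, _, ⟨⟩⟩; rfl)
  | x :: β => (((((finite_toSet (R'.flatMap (·.2))).preimage inl_injective.injOn).image inl).union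
      ((finQ.prod finQ).image fun t => inr (inr (t.1, x.elim id id, t.2)))).image2 cons (finCh β)).subset (by
    rintro _ ⟨_, _, _ | ⟨⟨_, -, -, a⟩, b⟩ | ⟨_, a, b, c⟩⟩
    exacts [⟨_, .inl ⟨_, mem_flatMap.2 ⟨_, a, mem_cons_self⟩, rfl⟩, _, ⟨_, _, b⟩, rfl⟩,
      ⟨_, .inr ⟨(_, _), ⟨a, b⟩, rfl⟩, _, ⟨_, _, c⟩, rfl⟩])

theorem Ch.img {p β q γ} (a : Ch R' f h C p β q γ) : γ.map (Sum.map h (Sum.elim f (·.2.1))) = β := by
  induction a <;> simp [*]
end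

theorem key {R2 E : List (Rule ℕ)} {pre : List ℕ} {C : Set ℕ} {c0 : ℕ} (h0 : 0 ∉ C) (hc : c0 ∈ C)
    (h1 : ∀ r ∈ R2, r.1 ∉ C ∧ ∀ Y, inr Y ∈ r.2 → Y ∉ C)
    (h2 : ∀ r ∈ E, r.1 ∈ C ∧ ∃ a, ∃ q : Option ℕ, (∀ Y ∈ q, Y ∈ C) ∧ r.2 = inl a :: q.toList.map inr)
    (h3 : ∀ w, Gn {r | r ∈ (0, pre.map inl ++ [inr c0]) :: (E ++ R2)} [inr c0] w →
      ∃ β, (0, pre.map inl ++ β) ∈ R2 ∧ Gn {r | r ∈ R2} β w)
    {G'} (a : Ip G' (0, (0, pre.map inl ++ [inr c0]) :: (E ++ R2))) : ∃ G'', Ip G'' (0, R2) ∧ Lg G'' = Lg G' := by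
  obtain ⟨S', R'⟩ := G'
  obtain ⟨f, h, a1, a2⟩ := a
  let P : Set (Rule (ℕ ⊕ Option ℕ × ℕ × Option ℕ)) :=
    {r | ∃ r' ∈ R', (f r'.1, r'.2.map (Sum.map h f)) ∈ R2 ∧ r = (inl r'.1, r'.2.map (Sum.map id inl))} ∪
    {r | ∃ X, ∃ x : List ℕ, ∃ Y β γ, (X, x.map inl ++ [inr Y]) ∈ R' ∧ f X = 0 ∧ x.map h = pre ∧
      (0, pre.map inl ++ β) ∈ R2 ∧ Ch R' f h C (some Y) β none γ ∧ r = (inl X, x.map inl ++ γ)} ∪
    {r | ∃ r0 ∈ R2, ∃ p ∈ Q0 R', ∃ q ∈ Q0 R', ∃ γ, Ch R' f h C p r0.2 q γ ∧ r = (inr (p, r0.1, q), γ)}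
  have fP : P.Finite := by
    refine ((((finite_toSet R').image fun r' => (inl r'.1, r'.2.map (Sum.map id inl))).subset ?_).union
      (((finite_toSet R').biUnion fun r' _ => (finite_toSet R2).biUnion fun r0 _ =>
        (finCh (R' := R') (f := f) (h := h) (C := C) (r0.2.drop pre.length)).image
          fun γ => (inl r'.1, r'.2.dropLast.map (Sum.map id inl) ++ γ)).subset ?_)).union
      (((finite_toSet R2).biUnion fun r0 _ => ((finQ (R' := R')).prod ((finQ (R' := R')).prod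
        (finCh (R' := R') (f := f) (h := h) (C := C) r0.2))).image
          fun t => (inr (t.1, r0.1, t.2.1), t.2.2)).subset ?_)
    · rintro _ ⟨r, b, -, rfl⟩; exact ⟨r, b, rfl⟩
    · rintro _ ⟨X, x, Y, β, γ, b, -, -, c, d, rfl⟩
      exact Set.mem_biUnion b (Set.mem_biUnion c ⟨γ, ⟨_, _, by simpa using d⟩, by simp [Function.comp_def]⟩)
    · rintro _ ⟨r, b, p, c, q, d, γ, e, rfl⟩
      exact Set.mem_biUnion b ⟨(p, q, γ), ⟨c, d, _, _, e⟩, rfl⟩
  obtain ⟨G'', b1, b2⟩ := enc fP (inl S') (Sum.elim f (·.2.1)) h (G := (0, R2)) a1 (by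
    rintro _ ((⟨r, -, b, rfl⟩ | ⟨X, x, Y, β, γ, -, b, rfl, c, d, rfl⟩) | ⟨r, b, p, -, q, -, γ, c, rfl⟩)
    · simpa [Sum.map_comp_map] using b
    · simpa [b, d.img, Function.comp_def] using c
    · simpa [c.img] using b)
  refine ⟨G'', b1, b2.trans (Set.ext fun w => ⟨fun c => ?_, fun c => ?_⟩)⟩
  · let I : ℕ ⊕ Option ℕ × ℕ × Option ℕ → List ℕ → Prop :=
      Sum.elim (fun X => Gn {r | r ∈ R'} [inr X]) fun t w => Pa R' f C t.1 w t.2.2
    have k1 : ∀ {p β q γ}, Ch R' f h C p β q γ → ∀ w, Sm I γ w → Pa R' f C p w q := fun a => by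
      induction a with
      | nil => rintro _ rfl; exact .nil _
      | ter a _ ih => rintro _ ⟨_, rfl, b⟩; exact .cons a (ih _ b)
      | nt _ _ _ _ ih => rintro _ ⟨_, _, rfl, b, c⟩; exact Pa.app b (ih _ c)
    have k2 : ∀ (β : List (ℕ ⊕ ℕ)) w, Sm I (β.map (Sum.map id inl)) w → Gn {r | r ∈ R'} β w := fun β => by
      induction β with
      | nil => rintro _ rfl; exact .nil
      | cons x β ih =>
        obtain a | X := x
        · rintro _ ⟨_, rfl, b⟩; exact .ter _ (ih _ b)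
        · rintro _ ⟨_, _, rfl, b, c⟩
          obtain _ | _ | ⟨b, d, ⟨⟩⟩ := b
          rw [append_nil]; exact .nt b d (ih _ c)
    obtain ⟨_, _, rfl, d, rfl⟩ := c.sound (I := I) (by
      rintro _ ((⟨r, b, -, rfl⟩ | ⟨X, x, Y, β, γ, b, -, -, -, d, rfl⟩) | ⟨r, -, p, -, q, -, γ, c, rfl⟩) w e
      · exact .one b (k2 _ _ e)
      · obtain ⟨v, rfl, g⟩ := sm_ters.1 e
        exact .one b (.ters x ((k1 d _ g).gn rfl))
      · exact k1 c _ e)
    rwa [append_nil]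
  have k1 : ∀ α w, Gn {r | r ∈ R'} α w → ∀ q : Option ℕ, (∀ Y ∈ q, f Y ∈ C) →
      (α = q.toList.map inr → Pa R' f C q w none) ∧
      ∀ a, α = inl a :: q.toList.map inr → ∃ v, w = a :: v ∧ Pa R' f C q v none := fun _ _ a => by
    induction a with
    | nil => rintro (_ | _) -; exacts [⟨fun _ => .nil _, nofun⟩, ⟨nofun, nofun⟩]
    | ter a _ ih => exact fun q b => ⟨by cases q <;> nofun, by rintro _ ⟨⟩; exact ⟨_, rfl, (ih q b).1 rfl⟩⟩
    | @nt X β _ _ _ a _ d ih =>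
      rintro (_ | Y) b <;> refine ⟨?_, nofun⟩ <;> rintro ⟨⟩
      cases d
      have e := b X rfl
      obtain g | g := mem_cons.1 (a2 _ a)
      · exact (h0 ((Prod.mk.inj g).1 ▸ e)).elim
      obtain ⟨-, a', q', g1, g2⟩ := h2 _ ((mem_append.1 g).resolve_right fun g => (h1 _ g).1 e)
      obtain ⟨q, a'', rfl, g3⟩ : ∃ q : Option ℕ, ∃ a'', β = inl a'' :: q.toList.map inr ∧ ∀ Y ∈ q, f Y ∈ C := by
        obtain ⟨_ | _, β, rfl, ⟨⟩, g3⟩ := map_eq_cons_iff.1 g2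
        obtain _ | Z := q'
        · exact ⟨none, _, congrArg _ (map_eq_nil_iff.1 g3), nofun⟩
        · obtain ⟨_ | Y, rfl, ⟨⟩⟩ := map_eq_singleton_iff.1 g3
          exact ⟨some Y, _, rfl, by rintro _ ⟨⟩; exact g1 _ rfl⟩
      obtain ⟨v, rfl, g4⟩ := (ih q g3).2 _ rfl
      rw [append_nil]; exact .cons ⟨X, rfl, e, a⟩ g4
  have k2 : ∀ β u, Gn {r | r ∈ R2} β u → ∀ w p q, u = w.map h → p ∈ Q0 R' → Pa R' f C p w q →
      ∃ γ, Ch R' f h C p β q γ ∧ Gn P γ w := fun _ _ a => by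
    induction a with
    | nil => rintro (_ | _) p q ⟨⟩ - ⟨⟩; exact ⟨_, .nil _, .nil⟩
    | ter a _ ih =>
      rintro (_ | ⟨b, w⟩) p q ⟨⟩ - (_ | ⟨c, d⟩)
      obtain ⟨γ, e, g⟩ := ih w _ q rfl c.mem d
      exact ⟨_, .ter c e, .ter _ g⟩
    | nt a _ _ ih ih' =>
      intro w p q b c d
      obtain ⟨u, v, rfl, rfl, rfl⟩ := map_eq_append_iff.1 b.symm
      obtain ⟨p', e, g, g'⟩ := d.split c
      obtain ⟨γ, i, j⟩ := ih u p p' rfl c g
      obtain ⟨γ', i', j'⟩ := ih' v p' q rfl e g'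
      exact ⟨_, .nt _ c e i', .nt (.inr ⟨_, a, p, c, p', e, γ, i, rfl⟩) j j'⟩
  suffices ∀ α w, Gn {r | r ∈ R'} α w → (∀ Y, inr Y ∈ α → f Y ∉ C) → Gn P (α.map (Sum.map id inl)) w from
    this _ _ c (by rintro _ (_ | ⟨_, ⟨⟩⟩); exact a1 ▸ h0)
  intro _ _ a
  induction a with
  | nil => exact fun _ => .nil
  | ter a _ ih => exact fun b => .ter a (ih fun Y c => b Y (mem_cons_of_mem _ c))
  | @nt X β _ w _ a d _ ih ih' =>
    intro b
    have e := ih' fun Y c => b Y (mem_cons_of_mem _ c)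
    obtain g | g := mem_cons.1 (a2 _ a)
    · obtain ⟨g1, g2⟩ := Prod.mk.inj g
      obtain ⟨β', _, rfl, g3, g4⟩ := map_eq_append_iff.1 g2
      obtain ⟨_ | Y, rfl, ⟨⟩⟩ := map_eq_singleton_iff.1 g4
      obtain ⟨x, rfl, rfl⟩ : ∃ x : List ℕ, β' = x.map inl ∧ x.map h = pre := by
        clear * - g3
        induction β' generalizing pre with
        | nil => exact ⟨[], rfl, by simpa using g3⟩
        | cons y β' ih =>
          obtain ⟨_, pre, rfl, g4, g5⟩ := map_eq_cons_iff.1 g3.symm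
          obtain ⟨x, rfl, rfl⟩ := ih g5.symm
          obtain _ | _ := y <;> cases g4
          exact ⟨_ :: x, rfl, rfl⟩
      obtain ⟨v, rfl, g5⟩ := d.unters
      obtain ⟨β, g6, g7⟩ := h3 _ (g5.map f h a2)
      obtain ⟨γ, g8, g9⟩ := k2 _ _ g7 v (some Y) none rfl (.inr ⟨Y, mem_flatMap.2 ⟨_, a, by simp⟩, rfl⟩)
        ((k1 _ _ g5 (some Y) (by rintro _ ⟨⟩; exact hc)).1 rfl)
      exact .nt (.inl (.inr ⟨X, x, Y, β, γ, a, g1, rfl, g6, g8, rfl⟩)) (.ters x g9) e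
    · have g := (mem_append.1 g).resolve_left fun g => b X mem_cons_self (h2 _ g).1
      exact .nt (.inl (.inl ⟨_, a, g, rfl⟩)) (ih fun Y c => (h1 _ g).2 _ (mem_map_of_mem (f := Sum.map h f) c)) e

end Pool.Agent.H.MP_3cd25e_lc
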